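import Pool.Agent.Q6.TY.All3

/-!
# MP_e336e1_al, Q1 : minimal-norm solutions of addition-multiplication systems over `ℂ`

Every complex solution of minimal Euclidean norm of a system of equations `x i = 1`,
`x i + x j = x k`, `x i * x j = x k` in `n` unknowns is in the polydisc of radius
`2 ^ (2 ^ (n - 2))`.
-/

namespace Pool.Agent.Results.MP_e336e1_al.MinimalNormComplex

/-- The set of the complex solutions of the system consisting of the equations `x i = 1` for
`i ∈ A`, `x i + x j = x k` for `(i, j, k) ∈ B` and `x i * x j = x k` for `(i, j, k) ∈ C`. -/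
def Solutions {n : ℕ} (A : Set (Fin n)) (B C : Set (Fin n × Fin n × Fin n)) :
    Set (Fin n → ℂ) :=
  {x | (∀ i ∈ A, x i = 1) ∧ (∀ e ∈ B, x e.1 + x e.2.1 = x e.2.2) ∧
    ∀ e ∈ C, x e.1 * x e.2.1 = x e.2.2}

/-- Every complex solution of minimal Euclidean norm satisfies `|x i| ≤ 2 ^ (2 ^ (n - 2))` (real
exponents). -/
theorem result : ∀ n : ℕ, 1 ≤ n → ∀ (A : Set (Fin n)) (B C : Set (Fin n × Fin n × Fin n)),
    ∀ x ∈ Solutions A B C,
    (∀ y ∈ Solutions A B C, Real.sqrt (∑ i, ‖x i‖ ^ 2) ≤ Real.sqrt (∑ i, ‖y i‖ ^ 2)) →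
    ∀ i, ‖x i‖ ≤ (2 : ℝ) ^ ((2 : ℝ) ^ ((n : ℝ) - 2)) := by
  intro n _ A B C x hx hmin i
  refine Pool.Agent.Q6.TY.min_norm' n A B C x hx (fun y hy => ?_) i
  exact (Real.sqrt_le_sqrt_iff (Finset.sum_nonneg fun _ _ => by positivity)).1 (hmin y hy)

end Pool.Agent.Results.MP_e336e1_al.MinimalNormComplex
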